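import Mathlib
import Pool.Agent.TH119.OP.Trace

/-!
# Representations of subgroups as functions on the group
-/

set_option linter.unusedSectionVars false
set_option linter.style.haveILetI false

namespace Pool.Agent.TH119.PT

open Matrix Pool.Agent.TH119.OP

variable {G : Type*} [Group G] {n : ℕ} {k : Type*} [Field k]

/-- The function `R` is multiplicative on the subgroup `U`. -/
structure PR (U : Subgroup G) (R : G → Matrix (Fin n) (Fin n) k) : Prop where
  one : R 1 = 1
  mul : ∀ a ∈ U, ∀ b ∈ U, R (a * b) = R a * R b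

/-- The span of the images of the elements of `U`. -/
def spn (U : Subgroup G) (R : G → Matrix (Fin n) (Fin n) k) :
    Submodule k (Matrix (Fin n) (Fin n) k) :=
  Submodule.span k (R '' U)

/-- Stable subspaces have stable complements. -/
def SSR (U : Subgroup G) (R : G → Matrix (Fin n) (Fin n) k) : Prop :=
  ∀ W : Submodule k (Fin n → k), (∀ g ∈ U, ∀ x ∈ W, (R g).mulVec x ∈ W) →
    ∃ W' : Submodule k (Fin n → k), (∀ g ∈ U, ∀ x ∈ W', (R g).mulVec x ∈ W') ∧ IsCompl W W'

variable {U H : Subgroup G} {R R' : G → Matrix (Fin n) (Fin n) k}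

theorem mem_spn (g : G) (hg : g ∈ U) : R g ∈ spn U R := Submodule.subset_span ⟨g, hg, rfl⟩

theorem spn_mono (h : H ≤ U) : spn H R ≤ spn U R :=
  Submodule.span_mono (Set.image_mono h)

theorem PR.mono (h : PR U R) (hH : H ≤ U) : PR H R :=
  ⟨h.one, fun a ha b hb => h.mul a (hH ha) b (hH hb)⟩

/-- The homomorphism given by `R` on `U`. -/
def PR.hom (h : PR U R) : U →* GL (Fin n) k :=
  MonoidHom.toHomUnits
    { toFun := fun u => R u
      map_one' := by rw [Subgroup.coe_one, h.one]
      map_mul' := fun a b => by rw [Subgroup.coe_mul, h.mul a a.2 b b.2] }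

theorem PR.hom_apply (h : PR U R) (u : U) : (h.hom u : Matrix (Fin n) (Fin n) k) = R u := rfl

theorem PR.sp_hom (h : PR U R) : sp h.hom = spn U R := by
  unfold sp spn
  congr 1
  ext x
  constructor
  · rintro ⟨u, rfl⟩
    exact ⟨u, u.2, rfl⟩
  · rintro ⟨u, hu, rfl⟩
    exact ⟨⟨u, hu⟩, rfl⟩

theorem PR.ss_hom (h : PR U R) (hss : SSR U R) : SS h.hom := by
  intro W hW
  obtain ⟨W', h1, h2⟩ := hss W fun g hg x hx => hW ⟨g, hg⟩ x hx
  exact ⟨W', fun g x hx => h1 g g.2 x hx, h2⟩

theorem PR.inv_mul (h : PR U R) {a : G} (ha : a ∈ U) : R a⁻¹ * R a = 1 := by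
  rw [← h.mul _ (U.inv_mem ha) _ ha, inv_mul_cancel, h.one]

theorem PR.mul_inv (h : PR U R) {a : G} (ha : a ∈ U) : R a * R a⁻¹ = 1 := by
  rw [← h.mul _ ha _ (U.inv_mem ha), mul_inv_cancel, h.one]

theorem spn_stable {W : Submodule k (Fin n → k)} (hW : ∀ g ∈ U, ∀ x ∈ W, (R g).mulVec x ∈ W)
    {y : Matrix (Fin n) (Fin n) k} (hy : y ∈ spn U R) : ∀ v ∈ W, y.mulVec v ∈ W := by
  intro v hv
  unfold spn at hy
  induction hy using Submodule.span_induction with
  | mem z hz => obtain ⟨g, hg, rfl⟩ := hz; exact hW g hg v hv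
  | zero => rw [Matrix.zero_mulVec]; exact W.zero_mem
  | add a b _ _ ha hb => rw [Matrix.add_mulVec]; exact W.add_mem ha hb
  | smul c a _ ha => rw [Matrix.smul_mulVec]; exact W.smul_mem c ha

/-- Semisimplicity depends only on the span. -/
theorem SSR.of_spn (hss : SSR U R) (hH : H ≤ U) (h : spn U R ≤ spn H R) : SSR H R := by
  intro W hW
  obtain ⟨W', h1, h2⟩ := hss W fun g hg x hx => spn_stable hW (h (mem_spn g hg)) x hx
  exact ⟨W', fun g hg x hx => h1 g (hH hg) x hx, h2⟩

/-- **Nondegeneracy.** -/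
theorem PR.eq_zero [CharZero k] (h : PR U R) (hss : SSR U R) {x : Matrix (Fin n) (Fin n) k}
    (hx : x ∈ spn U R) (htr : ∀ g ∈ U, (x * R g).trace = 0) : x = 0 := by
  rw [← h.sp_hom] at hx
  exact eq_zero_of_trace h.hom (h.ss_hom hss) hx fun g => htr g g.2

/-- A basis of the span. -/
theorem PR.exists_family (h : PR U R) : ∃ (d : ℕ) (g : Fin d → G), (∀ i, g i ∈ U) ∧
    d = Module.finrank k (spn U R) ∧
    Submodule.span k (Set.range fun i => R (g i)) = spn U R ∧
    LinearIndependent k fun i => R (g i) := by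
  obtain ⟨d, g, -, h1, h2⟩ := Pool.Agent.TH119.OP.exists_family h.hom
  rw [h.sp_hom] at h1
  refine ⟨d, fun i => g i, fun i => (g i).2, ?_, h1, h2⟩
  rw [← h1]
  exact ((finrank_span_eq_card h2).trans (Fintype.card_fin d)).symm

/-- **Comparison of the dimensions of the spans.** -/
theorem finrank_le [CharZero k] (h : PR H R) (hss : SSR H R) (h' : PR H R')
    (htr : ∀ g ∈ H, (R g).trace = (R' g).trace) :
    Module.finrank k (spn H R) ≤ Module.finrank k (spn H R') := by
  obtain ⟨d, g, hg, hd, hspan, hli⟩ := h.exists_family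
  have h1 : LinearIndependent k fun i => (⟨R' (g i), mem_spn _ (hg i)⟩ : spn H R') := by
    rw [Fintype.linearIndependent_iff]
    intro c hc
    have h2 : ∑ i, c i • R' (g i) = 0 := by
      have := congrArg (Submodule.subtype (spn H R')) hc
      rw [map_sum] at this
      simpa using this
    have h3 : ∑ i, c i • R (g i) = 0 := by
      refine h.eq_zero hss (Submodule.sum_mem _ fun i _ => Submodule.smul_mem _ _
        (mem_spn _ (hg i))) fun x hx => ?_
      have h4 : (∑ i, c i • R (g i)) * R x = ∑ i, c i • R (g i * x) := by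
        rw [Finset.sum_mul]
        exact Finset.sum_congr rfl fun i _ => by rw [smul_mul_assoc, h.mul _ (hg i) _ hx]
      have h5 : (∑ i, c i • R' (g i)) * R' x = ∑ i, c i • R' (g i * x) := by
        rw [Finset.sum_mul]
        exact Finset.sum_congr rfl fun i _ => by rw [smul_mul_assoc, h'.mul _ (hg i) _ hx]
      rw [h4, trace_sum]
      rw [h2, zero_mul] at h5
      have h6 := congrArg Matrix.trace h5.symm
      rw [trace_sum, trace_zero] at h6
      rw [← h6]
      refine Finset.sum_congr rfl fun i _ => ?_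
      rw [trace_smul, trace_smul, htr _ (H.mul_mem (hg i) hx)]
    exact (Fintype.linearIndependent_iff.1 hli) c h3
  have h2 := h1.fintype_card_le_finrank
  rwa [Fintype.card_fin, hd] at h2

/-- **Semisimple representations with the same traces are conjugate.** -/
theorem exists_conj [CharZero k] (h : PR H R) (hss : SSR H R) (h' : PR H R') (hss' : SSR H R')
    (htr : ∀ g ∈ H, (R g).trace = (R' g).trace) :
    ∃ M : GL (Fin n) k, ∀ g ∈ H, (M : Matrix (Fin n) (Fin n) k) * R g = R' g * M := by
  classical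
  let toRep : (ρ : H →* GL (Fin n) k) → Representation k H (Fin n → k) := fun ρ =>
    { toFun := fun g => Matrix.toLin' (ρ g : Matrix (Fin n) (Fin n) k)
      map_one' := by rw [map_one, Units.val_one, Matrix.toLin'_one]; rfl
      map_mul' := fun a b => by rw [map_mul, Units.val_mul, Matrix.toLin'_mul]; rfl }
  have hss1 : ∀ ρ : H →* GL (Fin n) k, SS ρ → (toRep ρ).IsSemisimpleRepresentation := by
    intro ρ hρ
    refine ⟨fun W => ?_⟩
    obtain ⟨W', h1, h2⟩ := hρ W.toSubmodule (fun g x hx => by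
      have := W.apply_mem_toSubmodule g hx
      change Matrix.toLin' (ρ g : Matrix (Fin n) (Fin n) k) x ∈ _ at this
      rwa [Matrix.toLin'_apply] at this)
    refine ⟨⟨W', fun g x hx => ?_⟩, ?_⟩
    · change Matrix.toLin' (ρ g : Matrix (Fin n) (Fin n) k) x ∈ _
      rw [Matrix.toLin'_apply]
      exact h1 g x hx
    · rw [isCompl_iff, disjoint_iff, codisjoint_iff] at h2 ⊢
      exact ⟨Subrepresentation.toSubmodule_injective h2.1,
        Subrepresentation.toSubmodule_injective h2.2⟩
  obtain ⟨e, he⟩ := Pool.Agent.TH623.SA.rep_iso (toRep h.hom) (toRep h'.hom)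
    (hss1 _ (h.ss_hom hss)) (hss1 _ (h'.ss_hom hss')) (by
      intro g
      change LinearMap.trace k _ (Matrix.toLin' (h.hom g : Matrix (Fin n) (Fin n) k)) =
        LinearMap.trace k _ (Matrix.toLin' (h'.hom g : Matrix (Fin n) (Fin n) k))
      rw [Matrix.trace_toLin'_eq, Matrix.trace_toLin'_eq]
      exact htr g g.2)
  let M : GL (Fin n) k :=
    ⟨LinearMap.toMatrix' (e : (Fin n → k) →ₗ[k] (Fin n → k)),
      LinearMap.toMatrix' (e.symm : (Fin n → k) →ₗ[k] (Fin n → k)), by
        rw [← LinearMap.toMatrix'_comp]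
        simp, by
        rw [← LinearMap.toMatrix'_comp]
        simp⟩
  refine ⟨M, fun g hg => ?_⟩
  apply Matrix.toLin'.injective
  rw [Matrix.toLin'_mul, Matrix.toLin'_mul]
  have hM : Matrix.toLin' (M : Matrix (Fin n) (Fin n) k) =
      (e : (Fin n → k) →ₗ[k] (Fin n → k)) := Matrix.toLin'_toMatrix' _
  rw [hM]
  refine LinearMap.ext fun v => ?_
  exact he ⟨g, hg⟩ v

/-- Conjugation. -/
def cj (M : GL (Fin n) k) (x : Matrix (Fin n) (Fin n) k) : Matrix (Fin n) (Fin n) k :=
  ((M⁻¹ : GL (Fin n) k) : Matrix (Fin n) (Fin n) k) * x * M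

theorem coe_mul_inv (M : GL (Fin n) k) :
    (M : Matrix (Fin n) (Fin n) k) * ((M⁻¹ : GL (Fin n) k) : Matrix (Fin n) (Fin n) k) = 1 := by
  rw [← Units.val_mul, mul_inv_cancel, Units.val_one]

theorem coe_inv_mul (M : GL (Fin n) k) :
    ((M⁻¹ : GL (Fin n) k) : Matrix (Fin n) (Fin n) k) * (M : Matrix (Fin n) (Fin n) k) = 1 := by
  rw [← Units.val_mul, inv_mul_cancel, Units.val_one]

theorem cj_one (M : GL (Fin n) k) : cj M 1 = 1 := by
  unfold cj
  rw [mul_one, coe_inv_mul]

theorem cj_mul (M : GL (Fin n) k) (x y : Matrix (Fin n) (Fin n) k) :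
    cj M (x * y) = cj M x * cj M y := by
  unfold cj
  calc _ = ((M⁻¹ : GL (Fin n) k) : Matrix (Fin n) (Fin n) k) * x *
      ((M : Matrix (Fin n) (Fin n) k) * ((M⁻¹ : GL (Fin n) k) : Matrix (Fin n) (Fin n) k)) *
        y * M := by
        rw [coe_mul_inv]; simp only [mul_assoc, mul_one, one_mul]
    _ = _ := by simp only [mul_assoc]

theorem cj_cj (M : GL (Fin n) k) (x : Matrix (Fin n) (Fin n) k) : cj M⁻¹ (cj M x) = x := by
  unfold cj
  rw [inv_inv]
  calc _ = ((M : Matrix (Fin n) (Fin n) k) * ((M⁻¹ : GL (Fin n) k) :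
      Matrix (Fin n) (Fin n) k)) * x * ((M : Matrix (Fin n) (Fin n) k) *
        ((M⁻¹ : GL (Fin n) k) : Matrix (Fin n) (Fin n) k)) := by simp only [mul_assoc]
    _ = x := by rw [coe_mul_inv, one_mul, mul_one]

theorem PR.conj (h : PR U R) (M : GL (Fin n) k) : PR U fun g => cj M (R g) :=
  ⟨by rw [h.one, cj_one], fun a ha b hb => by rw [h.mul a ha b hb, cj_mul]⟩

theorem trace_cj (M : GL (Fin n) k) (x : Matrix (Fin n) (Fin n) k) :
    (cj M x).trace = x.trace := by
  unfold cj
  rw [Matrix.trace_mul_comm, ← mul_assoc, coe_mul_inv, one_mul]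

theorem finrank_cj (M : GL (Fin n) k) :
    Module.finrank k (spn U fun g => cj M (R g)) = Module.finrank k (spn U R) := by
  let e : Matrix (Fin n) (Fin n) k ≃ₗ[k] Matrix (Fin n) (Fin n) k :=
    { toFun := cj M
      map_add' := fun x y => by unfold cj; rw [mul_add, add_mul]
      map_smul' := fun c x => by
        unfold cj
        rw [mul_smul_comm, smul_mul_assoc, RingHom.id_apply]
      invFun := cj M⁻¹
      left_inv := fun x => cj_cj M x
      right_inv := fun x => by
        have := cj_cj M⁻¹ x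
        rwa [inv_inv] at this }
  have h1 : spn U (fun g => cj M (R g)) =
      (spn U R).map (e : Matrix (Fin n) (Fin n) k →ₗ[k] Matrix (Fin n) (Fin n) k) := by
    unfold spn
    rw [Submodule.map_span, ← Set.image_comp]
    rfl
  rw [h1]
  exact LinearEquiv.finrank_map_eq e _

/-- From intertwining to equality with the conjugate. -/
theorem cj_of_intertwine {M : GL (Fin n) k} {x y : Matrix (Fin n) (Fin n) k}
    (h : (M : Matrix (Fin n) (Fin n) k) * x = y * M) : cj M y = x := by
  unfold cj
  rw [mul_assoc, ← h, ← mul_assoc, coe_inv_mul, one_mul]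

/-- **Alignment.** Two representations of `U` and `U'`, semisimple, with the same traces on
`H ≤ U ⊓ U'`, such that the first has the same span on `H`, and this span is not smaller than the
span of the second. Then the second can be conjugated such that they agree on `H` and the spans are
the same. -/
theorem align [CharZero k] {U' : Subgroup G} (h : PR U R) (hss : SSR U R) (hH : H ≤ U)
    (hspan : spn U R ≤ spn H R) (h' : PR U' R') (hss' : SSR U' R') (hH' : H ≤ U')
    (hdim : Module.finrank k (spn U' R') ≤ Module.finrank k (spn U R))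
    (htr : ∀ g ∈ H, (R g).trace = (R' g).trace) :
    ∃ M : GL (Fin n) k, (∀ g ∈ H, cj M (R' g) = R g) ∧
      spn U' (fun g => cj M (R' g)) = spn U R := by
  have hssH : SSR H R := hss.of_spn hH hspan
  have h1 : Module.finrank k (spn U R) ≤ Module.finrank k (spn H R') := by
    have h2 := finrank_le (h.mono hH) hssH (h'.mono hH') htr
    have h3 : spn H R = spn U R := le_antisymm (spn_mono hH) hspan
    rwa [h3] at h2
  have h2 : spn H R' = spn U' R' :=
    Submodule.eq_of_le_of_finrank_le (spn_mono hH') (hdim.trans h1)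
  have hssH' : SSR H R' := hss'.of_spn hH' h2.ge
  obtain ⟨M, hM⟩ := exists_conj (h.mono hH) hssH (h'.mono hH') hssH' htr
  have h3 : ∀ g ∈ H, cj M (R' g) = R g := fun g hg => cj_of_intertwine (hM g hg)
  refine ⟨M, h3, ?_⟩
  symm
  refine Submodule.eq_of_le_of_finrank_le ?_ ?_
  · refine hspan.trans ?_
    have h4 : spn H R = spn H fun g => cj M (R' g) := by
      unfold spn
      congr 1
      refine Set.image_congr fun g hg => (h3 g hg).symm
    rw [h4]
    exact spn_mono hH'
  · rw [finrank_cj]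
    exact hdim

end Pool.Agent.TH119.PT
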