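import Mathlib
import Pool.Agent.TH119.PT.Basic

/-!
# Patching representations of open normal subgroups
-/

set_option linter.unusedSectionVars false
set_option linter.style.haveILetI false

namespace Pool.Agent.TH119.PT

open Matrix Pool.Agent.TH119.OP Topology Filter

variable {G : Type*} [Group G] {n : ℕ} {k : Type*} [Field k]

theorem PR.mul_mem_spn {U : Subgroup G} {R : G → Matrix (Fin n) (Fin n) k} (h : PR U R)
    {x y : Matrix (Fin n) (Fin n) k} (hx : x ∈ spn U R) (hy : y ∈ spn U R) : x * y ∈ spn U R := by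
  unfold spn at hx
  induction hx using Submodule.span_induction with
  | mem x hx =>
    obtain ⟨a, ha, rfl⟩ := hx
    unfold spn at hy
    induction hy using Submodule.span_induction with
    | mem y hy =>
      obtain ⟨b, hb, rfl⟩ := hy
      rw [← h.mul a ha b hb]
      exact mem_spn _ (U.mul_mem ha hb)
    | zero => rw [mul_zero]; exact Submodule.zero_mem _
    | add a b _ _ ha hb => rw [mul_add]; exact Submodule.add_mem _ ha hb
    | smul c a _ ha => rw [mul_smul_comm]; exact Submodule.smul_mem _ c ha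
  | zero => rw [zero_mul]; exact Submodule.zero_mem _
  | add a b _ _ ha hb => rw [add_mul]; exact Submodule.add_mem _ ha hb
  | smul c a _ ha => rw [smul_mul_assoc]; exact Submodule.smul_mem _ c ha

/-- **Gluing.** -/
theorem glue [CharZero k] {U₀ U₁ : Subgroup G} [U₀.Normal] [U₁.Normal]
    {R₀ R₁ : G → Matrix (Fin n) (Fin n) k} (h₀ : PR U₀ R₀) (h₁ : PR U₁ R₁) (hss : SSR U₀ R₀)
    (hG : ∀ g : G, ∃ a ∈ U₀, ∃ b ∈ U₁, g = a * b)
    (heq : ∀ g ∈ U₀ ⊓ U₁, R₁ g = R₀ g) (hspan : spn U₀ R₀ ≤ spn (U₀ ⊓ U₁) R₀)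
    (hspan1 : spn U₁ R₁ = spn U₀ R₀)
    (hinv : ∀ g, ∀ a ∈ U₀, (R₀ (g * a * g⁻¹)).trace = (R₀ a).trace) :
    ∃ R : G → Matrix (Fin n) (Fin n) k, PR ⊤ R ∧ (∀ g ∈ U₀, R g = R₀ g) ∧
      ∀ g ∈ U₁, R g = R₁ g := by
  classical
  have hssH : SSR (U₀ ⊓ U₁) R₀ := hss.of_spn inf_le_left hspan
  have hPH : PR (U₀ ⊓ U₁) R₀ := h₀.mono inf_le_left
  have hstar : ∀ b ∈ U₁, ∀ a ∈ U₀, R₁ b * R₀ a = R₀ (b * a * b⁻¹) * R₁ b := by
    intro b hb a ha
    have hba : b * a * b⁻¹ ∈ U₀ := Subgroup.Normal.conj_mem inferInstance a ha b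
    have hx : R₁ b⁻¹ * R₀ (b * a * b⁻¹) * R₁ b - R₀ a = 0 := by
      refine hPH.eq_zero hssH ?_ ?_
      · refine hspan (Submodule.sub_mem _ ?_ (mem_spn _ ha))
        refine h₀.mul_mem_spn (h₀.mul_mem_spn ?_ (mem_spn _ hba)) ?_
        · rw [← hspan1]
          exact mem_spn _ (U₁.inv_mem hb)
        · rw [← hspan1]
          exact mem_spn _ hb
      · intro g hg
        have hbg : b * g * b⁻¹ ∈ U₀ ⊓ U₁ := Subgroup.Normal.conj_mem inferInstance g hg b
        have h1 : R₁ b * R₀ g = R₀ (b * g * b⁻¹) * R₁ b := by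
          rw [← heq g hg, ← heq _ hbg, ← h₁.mul _ hb _ hg.2, ← h₁.mul _ hbg.2 _ hb]
          congr 1
          group
        rw [sub_mul, trace_sub, sub_eq_zero]
        calc (R₁ b⁻¹ * R₀ (b * a * b⁻¹) * R₁ b * R₀ g).trace
            = (R₁ b⁻¹ * (R₀ (b * a * b⁻¹) * R₀ (b * g * b⁻¹) * R₁ b)).trace := by
              rw [mul_assoc _ (R₁ b), h1]
              simp only [mul_assoc]
          _ = (R₀ (b * a * b⁻¹) * R₀ (b * g * b⁻¹) * (R₁ b * R₁ b⁻¹)).trace := by
              rw [Matrix.trace_mul_comm]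
              simp only [mul_assoc]
          _ = (R₀ (b * (a * g) * b⁻¹)).trace := by
              rw [h₁.mul_inv hb, mul_one, ← h₀.mul _ hba _ hbg.1]
              congr 2
              group
          _ = (R₀ a * R₀ g).trace := by
              rw [hinv _ _ (U₀.mul_mem ha hg.1), h₀.mul _ ha _ hg.1]
    rw [sub_eq_zero] at hx
    rw [← hx]
    calc R₁ b * (R₁ b⁻¹ * R₀ (b * a * b⁻¹) * R₁ b) =
        (R₁ b * R₁ b⁻¹) * (R₀ (b * a * b⁻¹) * R₁ b) := by simp only [mul_assoc]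
      _ = _ := by rw [h₁.mul_inv hb, one_mul]
  choose α hα β hβ hαβ using hG
  let R : G → Matrix (Fin n) (Fin n) k := fun g => R₀ (α g) * R₁ (β g)
  have hR : ∀ a ∈ U₀, ∀ b ∈ U₁, R (a * b) = R₀ a * R₁ b := by
    intro a ha b hb
    have h1 := hαβ (a * b)
    set z := a⁻¹ * α (a * b) with hz
    have hz' : z = b * (β (a * b))⁻¹ := by
      rw [hz, inv_mul_eq_iff_eq_mul, ← mul_assoc]
      exact eq_mul_inv_of_mul_eq h1.symm
    have hzm : z ∈ U₀ ⊓ U₁ :=
      ⟨U₀.mul_mem (U₀.inv_mem ha) (hα _), by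
        rw [hz']
        exact U₁.mul_mem hb (U₁.inv_mem (hβ _))⟩
    change R₀ (α (a * b)) * R₁ (β (a * b)) = _
    have h2 : α (a * b) = a * z := by rw [hz]; group
    have h3 : b = z * β (a * b) := by rw [hz']; group
    have h4 : R₁ b = R₁ z * R₁ (β (a * b)) := by
      conv_lhs => rw [h3]
      exact h₁.mul _ hzm.2 _ (hβ _)
    rw [h2, h₀.mul _ ha _ hzm.1, h4, heq z hzm, mul_assoc]
  refine ⟨R, ⟨?_, ?_⟩, ?_, ?_⟩
  · have := hR 1 U₀.one_mem 1 U₁.one_mem
    rw [mul_one] at this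
    rw [this, h₀.one, h₁.one, mul_one]
  · intro x _ y _
    have h1 : x * y = (α x * (β x * α y * (β x)⁻¹)) * (β x * β y) := by
      conv_lhs => rw [hαβ x, hαβ y]
      group
    have hc : β x * α y * (β x)⁻¹ ∈ U₀ := Subgroup.Normal.conj_mem inferInstance _ (hα y) _
    rw [h1, hR _ (U₀.mul_mem (hα x) hc) _ (U₁.mul_mem (hβ x) (hβ y)), h₀.mul _ (hα x) _ hc,
      h₁.mul _ (hβ x) _ (hβ y)]
    change _ = R₀ (α x) * R₁ (β x) * (R₀ (α y) * R₁ (β y))
    calc _ = R₀ (α x) * (R₀ (β x * α y * (β x)⁻¹) * R₁ (β x)) * R₁ (β y) := by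
          simp only [mul_assoc]
      _ = _ := by
          rw [← hstar _ (hβ x) _ (hα y)]
          simp only [mul_assoc]
  · intro g hg
    have := hR g hg 1 U₁.one_mem
    rwa [mul_one, h₁.one, mul_one] at this
  · intro g hg
    have := hR 1 U₀.one_mem g hg
    rwa [one_mul, h₀.one, one_mul] at this

section top

variable [TopologicalSpace G] [IsTopologicalGroup G] [CompactSpace G] [TotallyDisconnectedSpace G]
  [TopologicalSpace k] [IsTopologicalRing k] [T2Space k]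

/-- **Persistence of the span.** -/
theorem exists_W [CharZero k] {U : Subgroup G} {R : G → Matrix (Fin n) (Fin n) k} (h : PR U R)
    (hss : SSR U R) (hU : IsOpen (U : Set G)) (hc : ContinuousOn R U) :
    ∃ W : Subgroup G, W.Normal ∧ IsOpen (W : Set G) ∧ W ≤ U ∧
      ∀ H : Subgroup G, (∀ g : G, ∃ a ∈ H, ∃ w ∈ W, g = a * w) → spn U R ≤ spn (H ⊓ U) R := by
  classical
  obtain ⟨d, u, hu, hd, hspan, hli⟩ := h.exists_family
  let M : (Fin d → G) → Matrix (Fin d) (Fin d) k := fun w =>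
    Matrix.of fun i j => (R (u i) * R (u j * w j)).trace
  have hM : ContinuousAt M 1 := by
    refine continuousAt_pi.2 fun i => continuousAt_pi.2 fun j => ?_
    have h1 : ContinuousAt (fun w : Fin d → G => R (u j * w j)) 1 := by
      refine ContinuousAt.comp (f := fun w : Fin d → G => u j * w j) (g := R) ?_ ?_
      · refine hc.continuousAt (hU.mem_nhds ?_)
        change u j * 1 ∈ U
        rw [mul_one]
        exact hu j
      · exact ((continuous_const.mul (continuous_apply j))).continuousAt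
    have h2 : Continuous fun y : Matrix (Fin n) (Fin n) k => (R (u i) * y).trace :=
      (continuous_const.matrix_mul continuous_id).matrix_trace
    exact h2.continuousAt.comp h1
  have hdet : ContinuousAt (fun w => (M w).det) 1 :=
    (continuous_id.matrix_det.continuousAt (x := M 1)).comp hM
  have hne : (M 1).det ≠ 0 := by
    intro h0
    obtain ⟨v, hv, hMv⟩ := Matrix.exists_mulVec_eq_zero_iff.2 h0
    apply hv
    have h1 : ∑ j, v j • R (u j) = 0 := by
      refine h.eq_zero hss (Submodule.sum_mem _ fun i _ => Submodule.smul_mem _ _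
        (mem_spn _ (hu i))) fun g hg => ?_
      have h2 : ∀ y ∈ spn U R, (y * ∑ j, v j • R (u j)).trace = 0 := by
        intro y hy
        rw [← hspan] at hy
        induction hy using Submodule.span_induction with
        | mem z hz =>
          obtain ⟨i, rfl⟩ := hz
          have h3 := congrFun hMv i
          dsimp only
          rw [Finset.mul_sum, trace_sum]
          rw [Matrix.mulVec, dotProduct, Pi.zero_apply] at h3
          rw [← h3]
          refine Finset.sum_congr rfl fun j _ => ?_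
          change _ = (R (u i) * R (u j * 1)).trace * v j
          rw [mul_one, mul_smul_comm, trace_smul, smul_eq_mul, mul_comm]
        | zero => rw [zero_mul, trace_zero]
        | add a b _ _ ha hb => rw [add_mul, trace_add, ha, hb, add_zero]
        | smul c a _ ha => rw [smul_mul_assoc, trace_smul, ha, smul_zero]
      rw [Matrix.trace_mul_comm]
      exact h2 _ (mem_spn _ hg)
    funext j
    exact (Fintype.linearIndependent_iff.1 hli) v h1 j
  have hev : ∀ᶠ w in 𝓝 (1 : Fin d → G), (M w).det ≠ 0 := hdet.eventually_ne hne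
  rw [Filter.eventually_iff, nhds_pi, Filter.mem_pi] at hev
  obtain ⟨I, -, t, ht, hsub⟩ := hev
  have hV : (⋂ i, t i) ∩ (U : Set G) ∈ 𝓝 (1 : G) :=
    Filter.inter_mem (Filter.iInter_mem.2 fun i => ht i) (hU.mem_nhds U.one_mem)
  obtain ⟨V, hVsub, hVo, hV1⟩ := mem_nhds_iff.1 hV
  obtain ⟨W, hW⟩ := ProfiniteGrp.exist_openNormalSubgroup_sub_open_nhds_of_one hVo hV1
  refine ⟨(W : Subgroup G), inferInstance, W.isOpen', fun x hx => (hVsub (hW hx)).2, ?_⟩
  intro H hH
  have hch : ∀ j, ∃ w ∈ (W : Subgroup G), u j * w ∈ H := by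
    intro j
    obtain ⟨a, ha, w, hw, haw⟩ := hH (u j)
    refine ⟨w⁻¹, Subgroup.inv_mem _ hw, ?_⟩
    rw [haw, mul_inv_cancel_right]
    exact ha
  choose w hwW hwH using hch
  have hwU : ∀ j, u j * w j ∈ U := fun j => U.mul_mem (hu j) (hVsub (hW (hwW j))).2
  have hdet1 : (M w).det ≠ 0 := by
    apply hsub
    intro i _
    exact Set.mem_iInter.1 (hVsub (hW (hwW i))).1 i
  have hli1 : LinearIndependent k fun j =>
      (⟨R (u j * w j), mem_spn _ ⟨hwH j, hwU j⟩⟩ : spn (H ⊓ U) R) := by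
    rw [Fintype.linearIndependent_iff]
    intro c hc
    have h2 : ∑ i, c i • R (u i * w i) = 0 := by
      have := congrArg (Submodule.subtype (spn (H ⊓ U) R)) hc
      rw [map_sum] at this
      simpa using this
    have h3 : (M w).mulVec c = 0 := by
      refine funext fun i => ?_
      change ∑ j, (R (u i) * R (u j * w j)).trace * c j = 0
      have h4 : (R (u i) * ∑ j, c j • R (u j * w j)).trace = 0 := by
        rw [h2, mul_zero, trace_zero]
      rw [← h4, Finset.mul_sum, trace_sum]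
      refine Finset.sum_congr rfl fun j _ => ?_
      rw [mul_smul_comm, trace_smul, smul_eq_mul, mul_comm]
    exact congrFun (Matrix.eq_zero_of_mulVec_eq_zero hdet1 h3)
  have h5 := hli1.fintype_card_le_finrank
  rw [Fintype.card_fin, hd] at h5
  exact (Submodule.eq_of_le_of_finrank_le (spn_mono inf_le_right) h5).ge

/-- **Patching.** -/
theorem patch [CharZero k] {I : Type*} (U : I → Subgroup G) (hUn : ∀ i, (U i).Normal)
    (hUo : ∀ i, IsOpen (U i : Set G)) (R : I → G → Matrix (Fin n) (Fin n) k)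
    (hPR : ∀ i, PR (U i) (R i)) (hss : ∀ i, SSR (U i) (R i))
    (hc : ∀ i, ContinuousOn (R i) (U i))
    (hcompat : ∀ i j, ∀ g ∈ U i ⊓ U j, (R i g).trace = (R j g).trace)
    (hinv : ∀ i, ∀ g, ∀ a ∈ U i, (R i (g * a * g⁻¹)).trace = (R i a).trace)
    (hgen : ∀ W : Subgroup G, W.Normal → IsOpen (W : Set G) →
      ∃ i, ∀ g : G, ∃ a ∈ U i, ∃ w ∈ W, g = a * w) :
    ∃ (ρ : G → Matrix (Fin n) (Fin n) k) (W : Subgroup G), PR ⊤ ρ ∧ Continuous ρ ∧ SSR ⊤ ρ ∧
      W.Normal ∧ IsOpen (W : Set G) ∧ ∀ i, (∀ g : G, ∃ a ∈ U i, ∃ w ∈ W, g = a * w) →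
        ∃ M : GL (Fin n) k, ∀ u ∈ U i, ρ u = cj M (R i u) := by
  classical
  haveI := hUn
  -- maximal span
  obtain ⟨i₀, hmax⟩ : ∃ i₀, ∀ i, Module.finrank k (spn (U i) (R i)) ≤
      Module.finrank k (spn (U i₀) (R i₀)) := by
    obtain ⟨i, -⟩ := hgen ⊤ inferInstance isOpen_univ
    haveI : Nonempty I := ⟨i⟩
    have hfin : (Set.range fun i => Module.finrank k (spn (U i) (R i))).Finite := by
      refine Set.Finite.subset (Set.finite_Iic (n ^ 2)) ?_
      rintro _ ⟨i, rfl⟩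
      refine (Submodule.finrank_le _).trans ?_
      rw [Module.finrank_matrix]
      simp [sq]
    obtain ⟨m, hm⟩ := hfin.exists_maximal (Set.range_nonempty _)
    obtain ⟨i₀, rfl⟩ := hm.1
    have hi₀ : ∀ i, Module.finrank k (spn (U i) (R i)) ≤
        Module.finrank k (spn (U i₀) (R i₀)) := fun i =>
      (le_total _ _).elim id fun h => hm.2 ⟨i, rfl⟩ h
    exact ⟨i₀, hi₀⟩
  obtain ⟨W₀, hW₀n, hW₀o, hW₀U, hW₀⟩ := exists_W (hPR i₀) (hss i₀) (hUo i₀) (hc i₀)
  obtain ⟨i₁, hi₁⟩ := hgen W₀ hW₀n hW₀o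
  have hspan0 : spn (U i₀) (R i₀) ≤ spn (U i₀ ⊓ U i₁) (R i₀) := by
    rw [inf_comm]
    exact hW₀ (U i₁) hi₁
  obtain ⟨M₁, hM₁, hM₁s⟩ := align (H := U i₀ ⊓ U i₁) (hPR i₀) (hss i₀) inf_le_left hspan0
    (hPR i₁) (hss i₁) inf_le_right (hmax i₁) (hcompat i₀ i₁)
  have hG : ∀ g : G, ∃ a ∈ U i₀, ∃ b ∈ U i₁, g = a * b := by
    intro g
    obtain ⟨b, hb, w, hw, hbw⟩ := hi₁ g
    refine ⟨b * w * b⁻¹, Subgroup.Normal.conj_mem inferInstance w (hW₀U hw) b, b, hb, ?_⟩
    rw [hbw]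
    group
  obtain ⟨ρ, hρ, hρ0, hρ1⟩ := glue (hPR i₀) ((hPR i₁).conj M₁) (hss i₀) hG hM₁ hspan0 hM₁s
    (hinv i₀)
  set U₀₁ := U i₀ ⊓ U i₁ with hU₀₁
  have hspanρ : spn ⊤ ρ = spn (U i₀) (R i₀) := by
    refine le_antisymm ?_ ?_
    · refine Submodule.span_le.2 ?_
      rintro _ ⟨g, -, rfl⟩
      obtain ⟨a, ha, b, hb, rfl⟩ := hG g
      rw [hρ.mul _ trivial _ trivial, hρ0 a ha, hρ1 b hb]
      refine (hPR i₀).mul_mem_spn (mem_spn _ ha) ?_
      rw [← hM₁s]
      exact mem_spn (R := fun g => cj M₁ (R i₁ g)) b hb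
    · refine Submodule.span_le.2 ?_
      rintro _ ⟨g, hg, rfl⟩
      rw [← hρ0 g hg]
      exact mem_spn g trivial
  have hssρ : SSR ⊤ ρ := by
    intro W hW
    obtain ⟨W', h1, h2⟩ := hss i₀ W (fun g hg x hx => by
      rw [← hρ0 g hg]
      exact hW g trivial x hx)
    refine ⟨W', fun g hg x hx => ?_, h2⟩
    refine spn_stable h1 ?_ x hx
    rw [← hspanρ]
    exact mem_spn g trivial
  have hcρ0 : ContinuousOn ρ (U i₀) := (hc i₀).congr hρ0
  have hcρ : Continuous ρ := by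
    rw [continuous_iff_continuousAt]
    intro g
    have h1 : ContinuousAt ρ 1 := hcρ0.continuousAt ((hUo i₀).mem_nhds (U i₀).one_mem)
    have h2 : ρ = (fun y => ρ g * y) ∘ ρ ∘ fun x => g⁻¹ * x := by
      funext x
      change ρ x = ρ g * ρ (g⁻¹ * x)
      rw [← hρ.mul _ trivial _ trivial, mul_inv_cancel_left]
    rw [h2]
    refine ContinuousAt.comp (by fun_prop) ?_
    refine ContinuousAt.comp ?_ (by fun_prop)
    rw [inv_mul_cancel]
    exact h1
  have hPR01 : PR U₀₁ ρ := hρ.mono le_top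
  have hspan01 : spn ⊤ ρ ≤ spn U₀₁ ρ := by
    rw [hspanρ]
    refine hspan0.trans (le_of_eq ?_)
    unfold spn
    congr 1
    exact Set.image_congr fun g hg => (hρ0 g hg.1).symm
  have hss01 : SSR U₀₁ ρ := hssρ.of_spn le_top hspan01
  obtain ⟨W, hWn, hWo, hWU, hW⟩ := exists_W hPR01 hss01 ((hUo i₀).inter (hUo i₁))
    hcρ.continuousOn
  refine ⟨ρ, W, hρ, hcρ, hssρ, hWn, hWo, fun i hi => ?_⟩
  have hspi : spn ⊤ ρ ≤ spn (U i ⊓ U₀₁) ρ := hspan01.trans (hW (U i) hi)
  have htr0 : ∀ g ∈ U i ⊓ U i₀, (ρ g).trace = (R i g).trace := by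
    intro g hg
    rw [hρ0 g hg.2]
    exact hcompat i₀ i g ⟨hg.2, hg.1⟩
  have htr1 : ∀ g ∈ U i ⊓ U i₁, (ρ g).trace = (R i g).trace := by
    intro g hg
    rw [hρ1 g hg.2, trace_cj]
    exact hcompat i₁ i g ⟨hg.2, hg.1⟩
  obtain ⟨M, hM, hMs⟩ := align (H := U i ⊓ U₀₁) hρ hssρ le_top hspi (hPR i) (hss i)
    inf_le_left (by rw [hspanρ]; exact hmax i) (fun g hg => htr0 g ⟨hg.1, hg.2.1⟩)
  refine ⟨M, ?_⟩
  have hssH : SSR (U i ⊓ U₀₁) ρ := hssρ.of_spn le_top hspi
  have hPRH : PR (U i ⊓ U₀₁) ρ := hρ.mono le_top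
  have hPRM := (hPR i).conj M
  -- equality on the two subgroups
  have hkey : ∀ U' : Subgroup G, U₀₁ ≤ U' → (∀ g ∈ U i ⊓ U', (ρ g).trace = (R i g).trace) →
      ∀ u ∈ U i ⊓ U', ρ u = cj M (R i u) := by
    intro U' hU' htr u hu
    have h1 : cj M (R i u) - ρ u = 0 := by
      refine hPRH.eq_zero hssH ?_ ?_
      · refine hspi (Submodule.sub_mem _ ?_ (mem_spn u trivial))
        rw [← hMs]
        exact mem_spn (R := fun g => cj M (R i g)) u hu.1
      · intro g hg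
        rw [sub_mul, trace_sub, sub_eq_zero]
        have h2 : cj M (R i u) * ρ g = cj M (R i (u * g)) := by
          rw [← hM g hg]
          exact (hPRM.mul u hu.1 g hg.1).symm
        rw [h2, trace_cj, ← hρ.mul _ trivial _ trivial]
        exact (htr (u * g) ⟨(U i).mul_mem hu.1 hg.1, U'.mul_mem hu.2 (hU' hg.2)⟩).symm
    exact (sub_eq_zero.1 h1).symm
  have hk0 := hkey (U i₀) inf_le_left htr0
  have hk1 := hkey (U i₁) inf_le_right htr1
  intro u hu
  obtain ⟨x, hx, y, hy, hxy⟩ := hG u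
  obtain ⟨b, hb, z, hz, hbz⟩ := hi y
  have hz01 := hWU hz
  have hb1 : b ∈ U i₁ := by
    have : b = y * z⁻¹ := by rw [hbz]; group
    rw [this]
    exact (U i₁).mul_mem hy ((U i₁).inv_mem hz01.2)
  have ha0 : u * b⁻¹ ∈ U i₀ := by
    have : u * b⁻¹ = x * (b * z * b⁻¹) := by rw [hxy, hbz]; group
    rw [this]
    exact (U i₀).mul_mem hx (Subgroup.Normal.conj_mem inferInstance z hz01.1 b)
  have hu' : u = (u * b⁻¹) * b := by group
  have hai : u * b⁻¹ ∈ U i := (U i).mul_mem hu ((U i).inv_mem hb)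
  rw [hu', hρ.mul _ trivial _ trivial, hk0 _ ⟨hai, ha0⟩, hk1 _ ⟨hb, hb1⟩]
  exact (hPRM.mul _ hai _ hb).symm

end top

end Pool.Agent.TH119.PT
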