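import Mathlib
import Pool.Agent.TH119.PT.Glue
import Pool.Agent.TH119.DS.Gal

/-!
# Patching Galois representations
-/

set_option linter.unusedSectionVars false
set_option linter.style.haveILetI false

namespace Pool.Agent.TH119.PT

open NumberField IsDedekindDomain Polynomial Matrix Topology Filter
open Pool.Agent.W401.Cheb (GK IsFrob IsInert)
open Pool.Agent.TH119.DS (exists_frob_mem)

variable {K : Type} [Field K] [NumberField K]

theorem sup_eq_top (L F : IntermediateField K (AlgebraicClosure K)) [FiniteDimensional K L]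
    (h : L ⊓ F = ⊥) : L.fixingSubgroup ⊔ F.fixingSubgroup = ⊤ := by
  have ho : IsOpen ((L.fixingSubgroup ⊔ F.fixingSubgroup : Subgroup (GK K)) : Set (GK K)) :=
    Subgroup.isOpen_mono le_sup_left (IntermediateField.fixingSubgroup_isOpen L)
  have hcl : IsClosed ((L.fixingSubgroup ⊔ F.fixingSubgroup : Subgroup (GK K)) : Set (GK K)) :=
    Subgroup.isClosed_of_isOpen _ ho
  let H : ClosedSubgroup (GK K) := ⟨L.fixingSubgroup ⊔ F.fixingSubgroup, hcl⟩
  have h1 := InfiniteGalois.fixingSubgroup_fixedField H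
  have h2 : IntermediateField.fixedField (H : Subgroup (GK K)) = ⊥ := by
    rw [eq_bot_iff, ← h]
    refine le_inf ?_ ?_
    · rw [← InfiniteGalois.fixedField_fixingSubgroup L]
      exact fun x hx => (IntermediateField.mem_fixedField_iff _ _).2 fun g hg =>
        (IntermediateField.mem_fixedField_iff _ _).1 hx g
          ((le_sup_left : L.fixingSubgroup ≤ L.fixingSubgroup ⊔ F.fixingSubgroup) hg)
    · rw [← InfiniteGalois.fixedField_fixingSubgroup F]
      exact fun x hx => (IntermediateField.mem_fixedField_iff _ _).2 fun g hg =>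
        (IntermediateField.mem_fixedField_iff _ _).1 hx g
          ((le_sup_right : F.fixingSubgroup ≤ L.fixingSubgroup ⊔ F.fixingSubgroup) hg)
  have h3 : (IntermediateField.fixedField (H : Subgroup (GK K))).fixingSubgroup =
      L.fixingSubgroup ⊔ F.fixingSubgroup := h1
  rw [← h3, h2, IntermediateField.fixingSubgroup_bot]

theorem trace_of_charpoly {k : Type*} [Field k] {n : ℕ} {A B : Matrix (Fin n) (Fin n) k}
    (h : A.charpoly = B.charpoly) : A.trace = B.trace := by
  rcases Nat.eq_zero_or_pos n with hn | hn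
  · subst hn
    simp [Matrix.trace]
  · haveI : Nonempty (Fin n) := ⟨⟨0, hn⟩⟩
    rw [Matrix.trace_eq_neg_charpoly_coeff, Matrix.trace_eq_neg_charpoly_coeff, h]

theorem charpoly_cj {k : Type*} [Field k] {n : ℕ} (M : GL (Fin n) k)
    (x : Matrix (Fin n) (Fin n) k) : (cj M x).charpoly = x.charpoly := by
  unfold cj
  rw [Matrix.coe_units_inv]
  exact Matrix.charpoly_units_conj' M x

variable {n : ℕ} {k : Type} [Field k] [CharZero k] [TopologicalSpace k] [IsTopologicalRing k]
  [T2Space k]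

/-- A function which is continuous on an open normal subgroup and vanishes at the Frobenius
elements outside a finite set vanishes. -/
theorem eq_of_frob (U : Subgroup (GK K)) (hU : IsOpen (U : Set (GK K)))
    (f g : GK K → k) (hf : ContinuousOn f U) (hg : ContinuousOn g U)
    (T : Set (HeightOneSpectrum (𝓞 K))) (hT : T.Finite)
    (h : ∀ v ∉ T, ∀ τ ∈ U, IsFrob v τ → f τ = g τ) : ∀ σ ∈ U, f σ = g σ := by
  intro σ hσ
  by_contra hne
  have h1 : ContinuousAt (fun x => f x - g x) σ :=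
    (hf.continuousAt (hU.mem_nhds hσ)).sub (hg.continuousAt (hU.mem_nhds hσ))
  have h2 : ∀ᶠ x in 𝓝 σ, f x - g x ≠ 0 := h1.eventually_ne (sub_ne_zero.2 hne)
  have h3 : ∀ᶠ x in 𝓝 (1 : GK K), σ * x ∈ U ∧ f (σ * x) - g (σ * x) ≠ 0 := by
    have h4 : Tendsto (fun x => σ * x) (𝓝 (1 : GK K)) (𝓝 σ) := by
      have := (continuous_const_mul σ).tendsto (1 : GK K)
      rwa [mul_one] at this
    have h5 : ∀ᶠ x in 𝓝 σ, x ∈ U := hU.mem_nhds hσ
    exact h4.eventually (h5.and h2)
  obtain ⟨V, hV, hVo, hV1⟩ := eventually_nhds_iff.1 h3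
  obtain ⟨W, hW⟩ := ProfiniteGrp.exist_openNormalSubgroup_sub_open_nhds_of_one hVo hV1
  obtain ⟨v, hv, τ, hτ, hτσ⟩ := exists_frob_mem (W : Subgroup (GK K)) W.isOpen' T hT σ
  have h4 : σ⁻¹ * τ ∈ (W : Subgroup (GK K)) := QuotientGroup.eq.1 hτσ.symm
  have h5 := hV _ (hW h4)
  rw [mul_inv_cancel_left] at h5
  exact h5.2 (sub_eq_zero.2 (h v hv τ h5.1 hτ))

/-- **The patching theorem.** -/
theorem main (P : HeightOneSpectrum (𝓞 K) → k[X]) {I : Type}
    (L : I → IntermediateField K (AlgebraicClosure K)) [∀ i, FiniteDimensional K (L i)]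
    [∀ i, IsGalois K (L i)] (ρ : ∀ i, (L i).fixingSubgroup →* GL (Fin n) k)
    (hcont : ∀ i, Continuous fun g => (ρ i g : Matrix (Fin n) (Fin n) k))
    (hss : ∀ i, Pool.Agent.TH119.OP.SS (ρ i))
    (hρ : ∀ i, ∃ T : Set (HeightOneSpectrum (𝓞 K)), T.Finite ∧ ∀ v ∉ T,
      ∀ σ : (L i).fixingSubgroup, IsFrob v (σ : GK K) →
        (ρ i σ : Matrix (Fin n) (Fin n) k).charpoly = P v)
    (hgen : ∀ F : IntermediateField K (AlgebraicClosure K), FiniteDimensional K F →
      ∃ i, L i ⊓ F = ⊥) :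
    ∃ r : GK K →* GL (Fin n) k, Continuous (fun g => (r g : Matrix (Fin n) (Fin n) k)) ∧
      Pool.Agent.TH119.OP.SS r ∧ ∃ F : IntermediateField K (AlgebraicClosure K),
        FiniteDimensional K F ∧ ∀ i, L i ⊓ F = ⊥ →
          ∃ M : GL (Fin n) k, ∀ σ : (L i).fixingSubgroup, r σ = M⁻¹ * ρ i σ * M := by
  classical
  let U : I → Subgroup (GK K) := fun i => (L i).fixingSubgroup
  have hUn : ∀ i, (U i).Normal := fun i => IsGalois.fixingSubgroup_normal_of_isGalois (L i)
  have hUo : ∀ i, IsOpen (U i : Set (GK K)) := fun i =>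
    IntermediateField.fixingSubgroup_isOpen (L i)
  let R : I → GK K → Matrix (Fin n) (Fin n) k := fun i g =>
    if h : g ∈ U i then (ρ i ⟨g, h⟩ : Matrix (Fin n) (Fin n) k) else 0
  have hR : ∀ i, ∀ g (h : g ∈ U i), R i g = ρ i ⟨g, h⟩ := fun i g h => dif_pos h
  have hPR : ∀ i, PR (U i) (R i) := by
    intro i
    refine ⟨?_, fun a ha b hb => ?_⟩
    · rw [hR i 1 (U i).one_mem]
      have : (⟨1, (U i).one_mem⟩ : U i) = 1 := rfl
      have h2 : ρ i ⟨1, (U i).one_mem⟩ = 1 := (congrArg (ρ i) this).trans (map_one (ρ i))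
      rw [h2, Units.val_one]
    · rw [hR i a ha, hR i b hb, hR i (a * b) ((U i).mul_mem ha hb), ← Units.val_mul,
        ← map_mul]
      rfl
  have hssR : ∀ i, SSR (U i) (R i) := by
    intro i W hW
    obtain ⟨W', h1, h2⟩ := hss i W fun g x hx => by
      have := hW g g.2 x hx
      rwa [hR i g g.2] at this
    refine ⟨W', fun g hg x hx => ?_, h2⟩
    rw [hR i g hg]
    exact h1 ⟨g, hg⟩ x hx
  have hcR : ∀ i, ContinuousOn (R i) (U i) := by
    intro i
    rw [continuousOn_iff_continuous_domRestrict]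
    refine (hcont i).congr fun g => ?_
    exact (hR i g g.2).symm
  have htrc : ∀ i, ContinuousOn (fun g => (R i g).trace) (U i) := fun i =>
    (Continuous.matrix_trace continuous_id).comp_continuousOn (hcR i)
  obtain ⟨r, W, hr, hrc, hrss, hWn, hWo, hW⟩ := patch U hUn hUo R hPR hssR hcR (by
    intro i j g hg
    obtain ⟨Ti, hTi, hi⟩ := hρ i
    obtain ⟨Tj, hTj, hj⟩ := hρ j
    refine eq_of_frob (U i ⊓ U j) ((hUo i).inter (hUo j)) (fun g => (R i g).trace)
      (fun g => (R j g).trace) ((htrc i).mono fun x hx => hx.1)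
      ((htrc j).mono fun x hx => hx.2) (Ti ∪ Tj) (hTi.union hTj) ?_ g hg
    intro v hv τ hτ hfr
    rw [Set.mem_union] at hv
    push Not at hv
    rw [hR i τ hτ.1, hR j τ hτ.2]
    refine trace_of_charpoly ?_
    rw [hi v hv.1 ⟨τ, hτ.1⟩ hfr, hj v hv.2 ⟨τ, hτ.2⟩ hfr]) (by
    intro i g a ha
    obtain ⟨Ti, hTi, hi⟩ := hρ i
    have hconj : ∀ a ∈ U i, g * a * g⁻¹ ∈ U i := fun a ha => (hUn i).conj_mem a ha g
    refine eq_of_frob (U i) (hUo i) (fun a => (R i (g * a * g⁻¹)).trace)
      (fun g => (R i g).trace) ((htrc i).comp (f := fun a => g * a * g⁻¹)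
        (by fun_prop) hconj) (htrc i) Ti hTi ?_ a ha
    intro v hv τ hτ hfr
    rw [hR i τ hτ, hR i _ (hconj τ hτ)]
    refine trace_of_charpoly ?_
    rw [hi v hv ⟨τ, hτ⟩ hfr, hi v hv ⟨_, hconj τ hτ⟩
      ((Pool.Agent.W401.Frob.main K).2.2 v τ g hfr)]) (by
    intro W hWn hWo
    have hWc : IsClosed (W : Set (GK K)) := Subgroup.isClosed_of_isOpen W hWo
    have h1 : (IntermediateField.fixedField W).fixingSubgroup = W :=
      InfiniteGalois.fixingSubgroup_fixedField ⟨W, hWc⟩
    have h2 : FiniteDimensional K (IntermediateField.fixedField W) := by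
      rw [← InfiniteGalois.isOpen_iff_finite]
      rw [h1]
      exact hWo
    obtain ⟨i, hi⟩ := hgen _ h2
    have h3 := sup_eq_top (L i) _ hi
    rw [h1] at h3
    refine ⟨i, fun g => ?_⟩
    have hg : g ∈ (L i).fixingSubgroup ⊔ W := by rw [h3]; trivial
    obtain ⟨a, ha, w, hw, rfl⟩ := Subgroup.mem_sup_of_normal_right.1 hg
    exact ⟨a, ha, w, hw, rfl⟩)
  have hWc : IsClosed (W : Set (GK K)) := Subgroup.isClosed_of_isOpen W hWo
  have h1 : (IntermediateField.fixedField W).fixingSubgroup = W :=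
    InfiniteGalois.fixingSubgroup_fixedField ⟨W, hWc⟩
  have h2 : FiniteDimensional K (IntermediateField.fixedField W) := by
    rw [← InfiniteGalois.isOpen_iff_finite]
    rw [h1]
    exact hWo
  let r' : GK K →* GL (Fin n) k := hr.hom.comp (Subgroup.topEquiv.symm.toMonoidHom)
  have hr' : ∀ g, (r' g : Matrix (Fin n) (Fin n) k) = r g := fun g => rfl
  refine ⟨r', ?_, ?_, IntermediateField.fixedField W, h2, ?_⟩
  · simp only [hr']
    exact hrc
  · intro V hV
    obtain ⟨V', h3, h4⟩ := hrss V fun g _ x hx => hV g x hx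
    exact ⟨V', fun g x hx => h3 g trivial x hx, h4⟩
  · intro i hi
    have h3 := sup_eq_top (L i) _ hi
    rw [h1] at h3
    obtain ⟨M, hM⟩ := hW i (fun g => by
      have hg : g ∈ (L i).fixingSubgroup ⊔ W := by rw [h3]; trivial
      obtain ⟨a, ha, w, hw, rfl⟩ := Subgroup.mem_sup_of_normal_right.1 hg
      exact ⟨a, ha, w, hw, rfl⟩)
    refine ⟨M, fun σ => ?_⟩
    apply Units.ext
    rw [hr', hM σ σ.2, hR i σ σ.2]
    rfl

end Pool.Agent.TH119.PT
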